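import Pool.Agent.L5helper86.RB.Base

/-!
# Independent uniform residues and the Chinese remainder theorem (for project RB of helper86)
-/

set_option autoImplicit false

open Finset MeasureTheory ProbabilityTheory

namespace Pool.Agent.L5helper86.RB

/-- sums over the residues modulo a product of coprime numbers -/
lemma e_sum_crt {p N : ℕ} (hp : 0 < p) (hN : 0 < N) (hc : Nat.Coprime p N) (f : ℕ → ℕ → ℝ) :
    ∑ c ∈ range (p * N), f (c % p) (c % N) = ∑ r ∈ range p, ∑ b ∈ range N, f r b := by
  rw [← sum_product']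
  have hinj : Set.InjOn (fun c : ℕ => (c % p, c % N)) (range (p * N) : Set ℕ) := by
    intro c hc1 d hd1 hcd
    rw [coe_range, Set.mem_Iio] at hc1 hd1
    have h1 : c % p = d % p := (Prod.mk.inj hcd).1
    have h2 : c % N = d % N := (Prod.mk.inj hcd).2
    have h3 : c ≡ d [MOD p * N] := (Nat.modEq_and_modEq_iff_modEq_mul hc).1 ⟨h1, h2⟩
    have h4 : c % (p * N) = d % (p * N) := h3
    rwa [Nat.mod_eq_of_lt hc1, Nat.mod_eq_of_lt hd1] at h4
  have hmaps : Set.MapsTo (fun c : ℕ => (c % p, c % N)) (range (p * N) : Set ℕ)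
      (range p ×ˢ range N : Finset (ℕ × ℕ)) := by
    intro c _
    rw [mem_coe, mem_product]
    exact ⟨mem_range.2 (Nat.mod_lt _ hp), mem_range.2 (Nat.mod_lt _ hN)⟩
  have hsurj : Set.SurjOn (fun c : ℕ => (c % p, c % N)) (range (p * N) : Set ℕ)
      (range p ×ˢ range N : Finset (ℕ × ℕ)) := by
    refine Finset.surjOn_of_injOn_of_card_le _ hmaps hinj ?_
    rw [card_product, card_range, card_range, card_range]
  exact sum_nbij (fun c : ℕ => (c % p, c % N)) hmaps hinj hsurj fun c _ => rfl

/-- integrals of functions of finitely many residues -/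
theorem e_int_eq_sum {Ω : Type} [MeasurableSpace Ω] {P : Measure Ω} {X : ℕ → Ω → ℕ} (h : UL.Sys P X) (s : Finset ℕ) :
    (∀ p ∈ s, p.Prime) → ∀ (F : (ℕ → ℕ) → ℝ), UL.Dep s F → (∀ a, |F a| ≤ 1) →
    ∫ ω, F (fun p => X p ω) ∂P =
      (1 / ∏ p ∈ s, (p : ℝ)) * ∑ b ∈ range (∏ p ∈ s, p), F (fun p => b % p) := by
  classical
  have hP := h.prob
  induction s using Finset.induction_on with
  | empty =>
    intro _ F hF _
    have e : ∀ a b : ℕ → ℕ, F a = F b := fun a b => hF a b fun p hp => absurd hp (notMem_empty p)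
    rw [integral_congr_ae (Filter.Eventually.of_forall fun ω => e (fun p => X p ω) fun p => 0 % p)]
    simp
  | insert p s hps ih =>
    intro hs F hF hM
    have hp : p.Prime := hs p (mem_insert_self p s)
    have hs' : ∀ q ∈ s, q.Prime := fun q hq => hs q (mem_insert_of_mem hq)
    have hN : 0 < ∏ q ∈ s, q := prod_pos fun q hq => (hs' q hq).pos
    have hc : Nat.Coprime p (∏ q ∈ s, q) := by
      refine Nat.Coprime.prod_right fun q hq => ?_
      refine (Nat.coprime_primes hp (hs' q hq)).2 ?_
      rintro rfl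
      exact hps hq
    have hG : ∀ r, UL.Dep s fun a => F (Function.update a p r) := by
      intro r a b hab
      refine hF _ _ fun q hq => ?_
      by_cases hqp : q = p
      · subst hqp
        simp
      · rw [Function.update_of_ne hqp, Function.update_of_ne hqp]
        exact hab q (mem_of_mem_insert_of_ne hq hqp)
    have h1 := h.int_step hs' hp hps (G := fun r a => F (Function.update a p r)) hG (M := 1) fun r a => hM _
    have h2 : ∫ ω, F (fun q => X q ω) ∂P =
        ∫ ω, (fun r a => F (Function.update a p r)) (X p ω) (fun q => X q ω) ∂P := by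
      refine integral_congr_ae (Filter.Eventually.of_forall fun ω => ?_)
      have : Function.update (fun q => X q ω) p (X p ω) = fun q => X q ω :=
        Function.update_eq_self p fun q => X q ω
      change F (fun q => X q ω) = F (Function.update (fun q => X q ω) p (X p ω))
      rw [this]
    rw [h2, h1]
    have h3 : ∀ r ∈ range p, ∫ ω, (fun r a => F (Function.update a p r)) r (fun q => X q ω) ∂P =
        (1 / ∏ q ∈ s, (q : ℝ)) * ∑ b ∈ range (∏ q ∈ s, q), F (Function.update (fun q => b % q) p r) := by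
      intro r _
      exact ih hs' _ (hG r) fun a => hM _
    rw [sum_congr rfl h3, ← mul_sum, prod_insert hps, prod_insert hps, ← mul_assoc]
    have h4 := e_sum_crt hp.pos hN hc fun r b => F (Function.update (fun q => b % q) p r)
    rw [← h4]
    have h5 : ∀ c : ℕ, F (Function.update (fun q => (c % ∏ q ∈ s, q) % q) p (c % p)) = F fun q => c % q := by
      intro c
      refine hF _ _ fun q hq => ?_
      by_cases hqp : q = p
      · subst hqp
        simp
      · rw [Function.update_of_ne hqp]
        exact Nat.mod_mod_of_dvd c (dvd_prod_of_mem (fun q : ℕ => q) (mem_of_mem_insert_of_ne hq hqp))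
    rw [sum_congr rfl fun c _ => h5 c]
    congr 1
    rw [one_div, one_div, one_div, mul_inv]

theorem prob_eq_count {Ω : Type} [MeasurableSpace Ω] {P : Measure Ω} {X : ℕ → Ω → ℕ} (h : UL.Sys P X) (s : Finset ℕ)
    (hs : ∀ p ∈ s, p.Prime) (G : (ℕ → ℕ) → Prop) [DecidablePred G]
    (hG : ∀ a b : ℕ → ℕ, (∀ p ∈ s, a p = b p) → (G a ↔ G b)) :
    P.real {ω | G (fun p => X p ω)} =
      (#((range (∏ p ∈ s, p)).filter fun b => G (fun p => b % p)) : ℝ) / ∏ p ∈ s, (p : ℝ) := by
  have hP := h.prob
  have hF : UL.Dep s fun a => if G a then (1 : ℝ) else 0 := by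
    intro a b hab
    by_cases ha : G a
    · simp [ha, (hG a b hab).1 ha]
    · have hb : ¬ G b := fun hb => ha ((hG a b hab).2 hb)
      simp [ha, hb]
  have h1 := e_int_eq_sum h s hs (fun a => if G a then (1 : ℝ) else 0) hF (by
    intro a
    by_cases ha : G a <;> simp [ha])
  have hm : MeasurableSet {ω | G (fun p => X p ω)} := by
    have hm1 := h.meas_dep hF
    have e : {ω | G (fun p => X p ω)} = (fun ω => if G (fun q => X q ω) then (1 : ℝ) else 0) ⁻¹' {1} := by
      ext ω
      by_cases hω : G (fun p => X p ω) <;> simp [hω]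
    rw [e]
    exact hm1 (measurableSet_singleton 1)
  have h2 : P.real {ω | G (fun p => X p ω)} = ∫ ω, (if G (fun p => X p ω) then (1 : ℝ) else 0) ∂P := by
    rw [← integral_indicator_one hm]
    refine integral_congr_ae (Filter.Eventually.of_forall fun ω => ?_)
    by_cases hω : G (fun p => X p ω)
    · simp [Set.indicator, hω]
    · simp [Set.indicator, hω]
  rw [h2, h1, card_filter]
  push_cast
  rw [one_div, div_eq_inv_mul]

/-- E2: `qs` and divisibility -/
theorem qs_iff {p b n : ℕ} (hn : Odd n) : qs p b n = 0 ↔ p ∣ (b ^ n + 1) / (b + 1) := by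
  have h1 : (∑ i ∈ range n, (-(b : ℤ)) ^ i) * (b + 1) = b ^ n + 1 := by
    have h := geom_sum_mul (-(b : ℤ)) n
    rw [hn.neg_pow] at h
    linarith
  have h2 : (b : ℤ) + 1 ≠ 0 := by positivity
  have h3 : (((b ^ n + 1) / (b + 1) : ℕ) : ℤ) = ∑ i ∈ range n, (-(b : ℤ)) ^ i := by
    push_cast
    rw [← h1, Int.mul_ediv_cancel _ h2]
  have h4 : qs p b n = (((b ^ n + 1) / (b + 1) : ℕ) : ZMod p) := by
    have : ((((b ^ n + 1) / (b + 1) : ℕ) : ℤ) : ZMod p) = (((b ^ n + 1) / (b + 1) : ℕ) : ZMod p) := Int.cast_natCast _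
    rw [← this, h3, qs]
    push_cast
    rfl
  rw [h4, ZMod.natCast_eq_zero_iff]

end Pool.Agent.L5helper86.RB
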