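import Pool.Agent.L5helper86.RB.Base
import Pool.Agent.L5helper79.RB.A1
import Pool.Agent.H410R2.Iface2

/-!
# Primes congruent to one: weights (for project RB of helper86)
-/

set_option autoImplicit false

open Finset MeasureTheory ProbabilityTheory Filter Topology
open ArithmeticFunction (vonMangoldt)

namespace Pool.Agent.L5helper86.RB

namespace Uh

/-- primes `≡ 1 mod n`, weighted by `log` -/
noncomputable def wp (n m : ℕ) : ℝ := if m.Prime ∧ m % n = 1 then Real.log m else 0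

/-- `Λ` on `m ≡ 1 mod n` -/
noncomputable def wa (n m : ℕ) : ℝ := if m % n = 1 then vonMangoldt m else 0

/-- `Λ` off the primes -/
noncomputable def wq (m : ℕ) : ℝ := if m.Prime then 0 else vonMangoldt m

lemma wp_nonneg (n m : ℕ) : 0 ≤ wp n m := by
  unfold wp
  split_ifs
  · exact Real.log_natCast_nonneg _
  · exact le_rfl

lemma wq_nonneg (m : ℕ) : 0 ≤ wq m := by
  unfold wq
  split_ifs
  · exact le_rfl
  · exact ArithmeticFunction.vonMangoldt_nonneg

lemma wp_le_wa (n m : ℕ) : wp n m ≤ wa n m := by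
  unfold wp wa
  by_cases h1 : m.Prime
  · by_cases h2 : m % n = 1
    · rw [if_pos ⟨h1, h2⟩, if_pos h2, ArithmeticFunction.vonMangoldt_apply_prime h1]
    · rw [if_neg (fun h => h2 h.2), if_neg h2]
  · rw [if_neg (fun h => h1 h.1)]
    split_ifs
    · exact ArithmeticFunction.vonMangoldt_nonneg
    · exact le_rfl

lemma wa_le (n m : ℕ) : wa n m ≤ wp n m + wq m := by
  unfold wp wa wq
  by_cases h1 : m.Prime
  · by_cases h2 : m % n = 1
    · rw [if_pos h2, if_pos (show m.Prime ∧ m % n = 1 from ⟨h1, h2⟩), if_pos h1,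
        ArithmeticFunction.vonMangoldt_apply_prime h1, add_zero]
    · rw [if_neg h2, if_neg (show ¬ (m.Prime ∧ m % n = 1) from fun h => h2 h.2), if_pos h1, add_zero]
  · rw [if_neg (show ¬ (m.Prime ∧ m % n = 1) from fun h => h1 h.1), if_neg h1, zero_add]
    split_ifs
    · exact le_rfl
    · exact ArithmeticFunction.vonMangoldt_nonneg

lemma W1_mono {w w' : ℕ → ℝ} (h : ∀ m, w m ≤ w' m) (v : ℝ) : W1 w v ≤ W1 w' v := by
  unfold W1
  refine sum_le_sum fun m hm => mul_le_mul_of_nonneg_right (h m) ?_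
  have := A1.mem_Icc' hm
  linarith

lemma W1_add (w w' : ℕ → ℝ) (v : ℝ) : W1 (fun m => w m + w' m) v = W1 w v + W1 w' v := by
  unfold W1
  rw [← sum_add_distrib]
  exact sum_congr rfl fun m _ => by ring

lemma W1_wa {n : ℕ} (hn : n.Prime) (v : ℝ) :
    W1 (wa n) v = Pool.Agent.H410R2.psiLogAP (Real.exp v) (1 * n) 1 := by
  unfold W1 wa Pool.Agent.H410R2.psiLogAP
  rw [sum_filter]
  refine sum_congr rfl fun m hm => ?_
  have h1 : (0 : ℝ) < m := by exact_mod_cast (mem_Icc.1 hm).1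
  have h0 : m % n = 1 ↔ m ≡ 1 [MOD 1 * n] := by
    rw [one_mul, Nat.ModEq, Nat.mod_eq_of_lt hn.one_lt]
  by_cases h : m % n = 1
  · rw [if_pos h, if_pos (h0.1 h), Real.log_div (Real.exp_pos _).ne' h1.ne', Real.log_exp]
  · rw [if_neg h, if_neg (fun h' => h (h0.2 h')), zero_mul]

lemma W1_vm' (v : ℝ) : W1 (fun m => vonMangoldt m) v = Pool.Agent.H410R2.psiLog1 (Real.exp v) := by
  unfold W1 Pool.Agent.H410R2.psiLog1
  refine sum_congr rfl fun m hm => ?_
  have h1 : (0 : ℝ) < m := by exact_mod_cast (mem_Icc.1 hm).1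
  rw [Real.log_div (Real.exp_pos _).ne' h1.ne', Real.log_exp]

/-- one modulus -/
lemma bv1 (hBV : Pool.Agent.H410R2.BVAP) (A : ℕ) : ∃ v₀ : ℝ, ∀ v : ℝ, v₀ ≤ v → ∀ n : ℕ, n.Prime →
    (n : ℝ) ≤ Real.exp (v / 3) →
    |((n : ℝ) - 1) * W1 (wa n) v - W1 (fun m => vonMangoldt m) v| ≤ ((n : ℝ) - 1) * (Real.exp v / v ^ A) := by
  obtain ⟨X₀, hX⟩ := hBV 1 le_rfl 1 le_rfl (1 / 6) (by norm_num) A
  refine ⟨Real.log (max X₀ 1), fun v hv n hn hnv => ?_⟩
  have hXv : X₀ ≤ Real.exp v := by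
    have h1 : Real.exp (Real.log (max X₀ 1)) ≤ Real.exp v := Real.exp_le_exp.2 hv
    rw [Real.exp_log (lt_of_lt_of_le one_pos (le_max_right _ _))] at h1
    exact (le_max_left _ _).trans h1
  have h := hX (Real.exp v) hXv (fun _ => 1)
  simp only [one_pow, Real.log_exp] at h
  have hroot : Real.exp v ^ ((1 : ℝ) / 2 - 1 / 6) = Real.exp (v / 3) := by
    rw [← Real.exp_mul]
    congr 1
    ring
  rw [hroot] at h
  have hmem : n ∈ (Icc 1 ⌊Real.exp (v / 3)⌋₊).filter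
      (fun q => Squarefree q ∧ (1 : ℕ).Coprime (1 * q)) := by
    rw [mem_filter, mem_Icc]
    exact ⟨⟨hn.one_lt.le, Nat.le_floor hnv⟩, hn.squarefree, Nat.coprime_one_left _⟩
  have h5 := (single_le_sum (f := fun q : ℕ => 1 * |Pool.Agent.H410R2.psiLogAP (Real.exp v) (1 * q) 1 -
      Pool.Agent.H410R2.psiLog1 (Real.exp v) / (Nat.totient (1 * q) : ℝ)|)
      (fun q _ => by positivity) hmem).trans h
  rw [one_mul (|_|), ← W1_wa hn, ← W1_vm', one_mul, Nat.totient_prime hn, Nat.cast_sub hn.one_lt.le, Nat.cast_one] at h5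
  have hn1 : (1 : ℝ) < n := by exact_mod_cast hn.one_lt
  have h6 : ((n : ℝ) - 1) * W1 (wa n) v - W1 (fun m => vonMangoldt m) v =
      ((n : ℝ) - 1) * (W1 (wa n) v - W1 (fun m => vonMangoldt m) v / ((n : ℝ) - 1)) := by
    have : (n : ℝ) - 1 ≠ 0 := by linarith
    field_simp
  rw [h6, abs_mul, abs_of_nonneg (by linarith : (0 : ℝ) ≤ (n : ℝ) - 1)]
  exact mul_le_mul_of_nonneg_left h5 (by linarith)

/-- the prime powers that are not primes -/
lemma W1_wq {v : ℝ} (hv : 0 ≤ v) : W1 wq v ≤ 2 * v ^ 2 * Real.exp (v / 2) := by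
  have h1 : W1 wq v ≤ ∑ m ∈ Icc 1 ⌊Real.exp v⌋₊, wq m * v := by
    unfold W1
    refine sum_le_sum fun m _ => mul_le_mul_of_nonneg_left ?_ (wq_nonneg m)
    have := Real.log_natCast_nonneg m
    linarith
  rw [← sum_mul] at h1
  have h2 : ∑ m ∈ Icc 1 ⌊Real.exp v⌋₊, wq m = Chebyshev.psi (Real.exp v) - Chebyshev.theta (Real.exp v) := by
    rw [Chebyshev.psi_sub_theta_eq_sum_not_prime, sum_filter]
    have : Icc 1 ⌊Real.exp v⌋₊ = Ioc 0 ⌊Real.exp v⌋₊ := by
      ext m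
      rw [mem_Icc, mem_Ioc]
      omega
    rw [this]
    refine sum_congr rfl fun m _ => ?_
    unfold wq
    by_cases h : m.Prime
    · rw [if_pos h, if_neg (not_not.2 h)]
    · rw [if_neg h, if_pos h]
  have h3 := Chebyshev.psi_sub_theta_le (x := Real.exp v) (Real.one_le_exp hv)
  rw [Real.log_exp, ← Real.exp_half] at h3
  rw [h2] at h1
  refine h1.trans ((mul_le_mul_of_nonneg_right h3 hv).trans (le_of_eq ?_))
  ring

lemma pow_le_exp (k : ℕ) {c : ℝ} (hc : 0 < c) : ∃ v₀ : ℝ, 1 ≤ v₀ ∧ ∀ v : ℝ, v₀ ≤ v → 2 * v ^ k ≤ Real.exp (c * v) := by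
  have h := (isLittleO_pow_exp_pos_mul_atTop k hc).bound (show (0 : ℝ) < 1 / 2 by norm_num)
  obtain ⟨v₀, hv⟩ := eventually_atTop.1 h
  refine ⟨max v₀ 1, le_max_right _ _, fun v hv' => ?_⟩
  have h1 := hv v ((le_max_left _ _).trans hv')
  have h2 : 0 ≤ v := zero_le_one.trans ((le_max_right _ _).trans hv')
  rw [Real.norm_of_nonneg (pow_nonneg h2 _), Real.norm_of_nonneg (Real.exp_pos _).le] at h1
  linarith

/-- the two comparisons -/
lemma key (hBV : Pool.Agent.H410R2.BVAP) (B : ℕ) : ∃ v₁ : ℝ, 2 ≤ v₁ ∧ ∀ v : ℝ, v₁ ≤ v → ∀ n : ℕ, n.Prime →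
    (n : ℝ) ≤ v ^ B →
    W1 (fun m => vonMangoldt m) v ≤ ((n : ℝ) - 1) * W1 (wp n) v + 2 * ((1 : ℕ) : ℝ) * (Real.exp v / v ^ 2) ∧
    ((n : ℝ) - 1) * W1 (wp n) v ≤ W1 (fun m => vonMangoldt m) v + Real.exp v / v ^ 2 := by
  obtain ⟨v₀, hv₀⟩ := bv1 hBV (B + 2)
  obtain ⟨a, ha1, ha⟩ := pow_le_exp B (show (0 : ℝ) < 1 / 3 by norm_num)
  obtain ⟨b, hb1, hb⟩ := pow_le_exp (B + 4) (show (0 : ℝ) < 1 / 2 by norm_num)
  refine ⟨max 2 (max v₀ (max a b)), le_max_left _ _, fun v hv n hn hnv => ?_⟩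
  have hv2 : 2 ≤ v := (le_max_left _ _).trans hv
  have hvv₀ : v₀ ≤ v := (le_trans (le_max_left _ _) (le_max_right _ _)).trans hv
  have hva : a ≤ v := (le_trans (le_trans (le_max_left _ _) (le_max_right _ _)) (le_max_right _ _)).trans hv
  have hvb : b ≤ v := (le_trans (le_trans (le_max_right _ _) (le_max_right _ _)) (le_max_right _ _)).trans hv
  have h1 := ha v hva
  have h2 := hb v hvb
  have hvpos : 0 < v := by linarith
  have hvB : 0 < v ^ B := by positivity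
  have hnexp : (n : ℝ) ≤ Real.exp (v / 3) := by
    have : (1 / 3 : ℝ) * v = v / 3 := by ring
    rw [this] at h1
    linarith
  have h3 := hv₀ v hvv₀ n hn hnexp
  have hn1 : (1 : ℝ) < n := by exact_mod_cast hn.one_lt
  have h4 : ((n : ℝ) - 1) * (Real.exp v / v ^ (B + 2)) ≤ Real.exp v / v ^ 2 := by
    have h5 : ((n : ℝ) - 1) * (Real.exp v / v ^ (B + 2)) ≤ v ^ B * (Real.exp v / v ^ (B + 2)) :=
      mul_le_mul_of_nonneg_right (by linarith) (by positivity)
    refine h5.trans (le_of_eq ?_)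
    rw [pow_add]
    field_simp
  have h3' := abs_le.1 (h3.trans h4)
  have h6 : W1 (wp n) v ≤ W1 (wa n) v := W1_mono (wp_le_wa n) v
  have h7 : W1 (wa n) v ≤ W1 (wp n) v + W1 wq v := by
    rw [← W1_add]
    exact W1_mono (wa_le n) v
  have h8 : ((n : ℝ) - 1) * W1 wq v ≤ Real.exp v / v ^ 2 := by
    have h9 : ((n : ℝ) - 1) * W1 wq v ≤ v ^ B * (2 * v ^ 2 * Real.exp (v / 2)) :=
      mul_le_mul (by linarith) (W1_wq hvpos.le)
        (by unfold W1
            refine sum_nonneg fun m hm => mul_nonneg (wq_nonneg m) ?_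
            have := A1.mem_Icc' hm
            linarith) hvB.le
    refine h9.trans ?_
    rw [le_div_iff₀ (by positivity)]
    have h10 : v ^ B * (2 * v ^ 2 * Real.exp (v / 2)) * v ^ 2 = 2 * v ^ (B + 4) * Real.exp (v / 2) := by ring
    have h11 : Real.exp v = Real.exp (1 / 2 * v) * Real.exp (v / 2) := by
      rw [← Real.exp_add]
      congr 1
      ring
    rw [h10, h11]
    exact mul_le_mul_of_nonneg_right h2 (Real.exp_pos _).le
  constructor
  · have h12 := mul_le_mul_of_nonneg_left h7 (show (0 : ℝ) ≤ (n : ℝ) - 1 by linarith)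
    rw [mul_add] at h12
    push_cast
    linarith [h3'.1]
  · have h12 := mul_le_mul_of_nonneg_left h6 (show (0 : ℝ) ≤ (n : ℝ) - 1 by linarith)
    linarith [h3'.2]

end Uh

end Pool.Agent.L5helper86.RB
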