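import Pool.Agent.L5helper15.RB.A2
import Pool.Agent.L5helper66.RB.C1
import Pool.Agent.L5helper59.RB.U1

/-!
# A pointwise upper bound for `Pn` (for project RB of helper86)
-/

set_option autoImplicit false

open Finset MeasureTheory ProbabilityTheory Filter Topology
open ArithmeticFunction (vonMangoldt)

namespace Pool.Agent.L5helper86.RB

namespace Uh

open A2h

lemma mertL0 {a : ℕ} (ha : 2 ≤ a) {b : ℕ} (hab : a ≤ b) :
    Real.log (Real.log b) - Real.log (Real.log a) + (Dm b + 1) / Real.log b - (Dm a + 1) / Real.log a ≤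
      ∑ m ∈ Ioc a b, vonMangoldt m / (m * Real.log m) := by
  induction b, hab using Nat.le_induction with
  | base => simp
  | succ b hb ih =>
    have hb2 : (2 : ℝ) ≤ b := by exact_mod_cast (ha.trans hb)
    rw [← Finset.insert_Ioc_right_eq_Ioc_add_one (by omega), sum_insert (by simp)]
    have hlb : 0 < Real.log b := Real.log_pos (by linarith)
    have hlb' : 0 < Real.log ((b + 1 : ℕ) : ℝ) := Real.log_pos (by push_cast; linarith)
    have hmono : Real.log b ≤ Real.log ((b + 1 : ℕ) : ℝ) :=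
      Real.log_le_log (by linarith) (by push_cast; linarith)
    have h1 : vonMangoldt (b + 1) / ((b + 1 : ℕ) : ℝ) =
        Dm (b + 1) - Dm b + (Real.log ((b + 1 : ℕ) : ℝ) - Real.log b) := by
      unfold Dm
      rw [← Finset.insert_Icc_right_eq_Icc_add_one (by omega), sum_insert (by simp)]
      ring
    have h2 : vonMangoldt (b + 1) / (((b + 1 : ℕ) : ℝ) * Real.log ((b + 1 : ℕ) : ℝ)) =
        (Dm (b + 1) - Dm b + (Real.log ((b + 1 : ℕ) : ℝ) - Real.log b)) / Real.log ((b + 1 : ℕ) : ℝ) := by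
      rw [← h1, div_div]
    rw [h2]
    have hD := Dm_nonneg (show 1 ≤ b by omega)
    -- the logarithms of consecutive integers
    have hd1 : Real.log ((b + 1 : ℕ) : ℝ) - Real.log b ≤ 1 := by
      rw [← Real.log_div (by push_cast; linarith) (by linarith)]
      have h3 : ((b + 1 : ℕ) : ℝ) / b ≤ 2 := by
        rw [div_le_iff₀ (by linarith)]
        push_cast
        linarith
      have h4 := Real.log_le_sub_one_of_pos (show (0 : ℝ) < ((b + 1 : ℕ) : ℝ) / b by positivity)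
      linarith
    set l := Real.log b
    set l' := Real.log ((b + 1 : ℕ) : ℝ)
    have h5 : Real.log l' - Real.log l ≤ (l' - l) / l' + (1 / l - 1 / l') := by
      have h6 := Real.log_le_sub_one_of_pos (div_pos hlb' hlb)
      rw [Real.log_div hlb'.ne' hlb.ne'] at h6
      have h7 : l' / l - 1 = (l' - l) / l' + (l' - l) * (1 / l - 1 / l') := by
        field_simp
        ring
      have h8 : 0 ≤ 1 / l - 1 / l' := by
        have := one_div_le_one_div_of_le hlb hmono
        linarith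
      have h9 : (l' - l) * (1 / l - 1 / l') ≤ 1 * (1 / l - 1 / l') := mul_le_mul_of_nonneg_right hd1 h8
      linarith
    have h10 : 0 ≤ Dm b * (1 / l - 1 / l') := by
      apply mul_nonneg hD
      have := one_div_le_one_div_of_le hlb hmono
      linarith
    have h11 : (Dm (b + 1) - Dm b + (l' - l)) / l' =
        Dm (b + 1) / l' - Dm b / l' + (l' - l) / l' := by ring
    have h12 : (Dm (b + 1) + 1) / l' = Dm (b + 1) / l' + 1 / l' := by ring
    have h13 : (Dm b + 1) / l = Dm b / l + 1 / l := by ring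
    have h14 : Dm b * (1 / l - 1 / l') = Dm b / l - Dm b / l' := by ring
    rw [h11, h12]
    rw [h13] at ih
    rw [h14] at h10
    linarith

lemma mertL {a : ℕ} (ha : 2 ≤ a) {b : ℕ} (hab : a ≤ b) :
    Real.log (Real.log b) - Real.log (Real.log a) - 13 / Real.log a ≤
      ∑ m ∈ Ioc a b, vonMangoldt m / (m * Real.log m) := by
  have h := mertL0 ha hab
  have ha2 : (2 : ℝ) ≤ a := by exact_mod_cast ha
  have hb2 : (2 : ℝ) ≤ b := by exact_mod_cast (ha.trans hab)
  have hla : 0 < Real.log a := Real.log_pos (by linarith)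
  have hlb : 0 < Real.log b := Real.log_pos (by linarith)
  have h1 : 0 ≤ (Dm b + 1) / Real.log b := by
    have := Dm_nonneg (show 1 ≤ b by omega)
    positivity
  have h2 : (Dm a + 1) / Real.log a ≤ 13 / Real.log a := by
    have := Dm_le (show 1 ≤ a by omega)
    exact div_le_div_of_nonneg_right (by linarith) hla.le
  linarith

/-- the logarithm of the floor of an exponential -/
lemma log_floor {x : ℝ} (hx : 1 ≤ x) : x - 1 ≤ Real.log ⌊Real.exp x⌋₊ := by
  have h1 : Real.exp x < ⌊Real.exp x⌋₊ + 1 := Nat.lt_floor_add_one _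
  have h2 : Real.exp 1 ≤ Real.exp x := Real.exp_le_exp.2 hx
  have h3 : (2 : ℝ) < Real.exp 1 := by linarith [Real.exp_one_gt_d9]
  have h4 : Real.exp (x - 1) ≤ ⌊Real.exp x⌋₊ := by
    have h5 : Real.exp x = Real.exp (x - 1) * Real.exp 1 := by
      rw [← Real.exp_add]
      congr 1
      ring
    have h6 : 1 ≤ Real.exp (x - 1) := Real.one_le_exp (by linarith)
    nlinarith
  have h7 := Real.log_le_log (Real.exp_pos _) h4
  rwa [Real.log_exp] at h7

/-- the sum of `1 / p` over `p ≡ 1 mod n` up to `e ^ (θ n)` -/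
noncomputable def SS (θ : ℝ) (n : ℕ) : ℝ :=
  ∑ p ∈ (pz (Real.exp (θ * n))).filter (fun p => p % n = 1), (1 : ℝ) / p

lemma wp_sum_le (θ L : ℝ) (n : ℕ) :
    ∑ m ∈ Ioc ⌊Real.exp L⌋₊ ⌊Real.exp (θ * n)⌋₊, wp n m / (m * Real.log m) ≤ SS θ n := by
  have h1 : ∀ m ∈ Ioc ⌊Real.exp L⌋₊ ⌊Real.exp (θ * n)⌋₊, wp n m / (m * Real.log m) =
      if m.Prime ∧ m % n = 1 then (1 : ℝ) / m else 0 := by
    intro m _
    unfold wp
    by_cases h : m.Prime ∧ m % n = 1
    · rw [if_pos h, if_pos h]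
      have h0 : (0 : ℝ) < m := by exact_mod_cast h.1.pos
      have h2 : 0 < Real.log m := Real.log_pos (by exact_mod_cast h.1.one_lt)
      field_simp
    · rw [if_neg h, if_neg h, zero_div]
  rw [sum_congr rfl h1, ← sum_filter]
  unfold SS
  apply sum_le_sum_of_subset_of_nonneg
  · intro p hp
    rw [mem_filter, mem_Ioc] at hp
    rw [mem_filter, mem_pz]
    exact ⟨⟨hp.2.1, (Nat.le_floor_iff (Real.exp_pos _).le).1 hp.1.2⟩, hp.2.2⟩
  · intro p _ _
    positivity

lemma SS_lower {θ : ℝ} (hθ : 0 < θ) {B : ℕ} (hB : 2 ≤ B) : ∃ n₀ : ℕ, ∀ n : ℕ, n₀ ≤ n → n.Prime →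
    (1 - 1 / (B : ℝ)) * Real.log n - (|Real.log θ| + 100) ≤ ((n : ℝ) - 1) * SS θ n := by
  obtain ⟨v₁, hv₁2, hkey⟩ := key bvap' B
  obtain ⟨v₂, hvm⟩ := vm_bound
  -- `n ^ (1 / B)` is large, and below `θ n / 2`
  have hBpos : (0 : ℝ) < B := by exact_mod_cast (by omega : 0 < B)
  have hB2 : (2 : ℝ) ≤ B := by exact_mod_cast hB
  have ht1 : Tendsto (fun n : ℕ => (n : ℝ) ^ (1 / (B : ℝ))) atTop atTop :=
    (tendsto_rpow_atTop (by positivity)).comp tendsto_natCast_atTop_atTop
  have ht2 : Tendsto (fun n : ℕ => (n : ℝ) ^ (1 - 1 / (B : ℝ))) atTop atTop := by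
    refine (tendsto_rpow_atTop ?_).comp tendsto_natCast_atTop_atTop
    rw [sub_pos, div_lt_one hBpos]
    linarith
  obtain ⟨a, ha⟩ := eventually_atTop.1 (ht1.eventually_ge_atTop (max v₁ v₂))
  obtain ⟨b, hb⟩ := eventually_atTop.1 (ht2.eventually_ge_atTop (1 / θ))
  refine ⟨max a b, fun n hn hnp => ?_⟩
  have hna := ha n ((le_max_left _ _).trans hn)
  have hnb := hb n ((le_max_right _ _).trans hn)
  have hn0 : (0 : ℝ) < n := by exact_mod_cast hnp.pos
  have hn1 : (1 : ℝ) < n := by exact_mod_cast hnp.one_lt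
  set L : ℝ := (n : ℝ) ^ (1 / (B : ℝ)) with hLdef
  set M : ℝ := θ * n with hMdef
  have hLv₁ : v₁ ≤ L := (le_max_left _ _).trans hna
  have hLv₂ : v₂ ≤ L := (le_max_right _ _).trans hna
  have hL2 : 2 ≤ L := hv₁2.trans hLv₁
  have hL1 : 1 ≤ L := by linarith
  have hL0 : 0 < L := by linarith
  have hLM : L ≤ M := by
    have h1 : (n : ℝ) = L * (n : ℝ) ^ (1 - 1 / (B : ℝ)) := by
      rw [hLdef, ← Real.rpow_add hn0]
      simp
    rw [div_le_iff₀ hθ] at hnb
    rw [hMdef, h1]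
    nlinarith
  have hM0 : 0 < M := by linarith
  have hM2 : 2 ≤ M := by linarith
  have hLB : L ^ B = n := by
    rw [hLdef, ← Real.rpow_natCast, ← Real.rpow_mul hn0.le, one_div, inv_mul_cancel₀ hBpos.ne', Real.rpow_one]
  have hnv : ∀ v, L ≤ v → (n : ℝ) ≤ v ^ B := by
    intro v hv
    rw [← hLB]
    exact pow_le_pow_left₀ hL0.le hv B
  have hn1' : (0 : ℝ) ≤ (n : ℝ) - 1 := by linarith
  -- the chain of inequalities
  have s1 := mul_le_mul_of_nonneg_left (wp_sum_le θ L n) hn1'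
  have s2 := mul_le_mul_of_nonneg_left (A1_lower (wp n) (wp_nonneg n) L M hL1 hLM) hn1'
  have hBc : ContinuousOn (fun v : ℝ => 2 * (((1 : ℕ) : ℝ)) * (Real.exp v / v ^ 2)) (Set.Icc L M) := by
    refine continuousOn_const.mul (ContinuousOn.div (by fun_prop) (by fun_prop) fun x hx => ?_)
    have : 0 < x := by linarith [hx.1]
    positivity
  have s3 := A1_int (fun m => vonMangoldt m) (wp n) ((n : ℝ) - 1) L M hL1 hLM
    (fun v : ℝ => 2 * (((1 : ℕ) : ℝ)) * (Real.exp v / v ^ 2)) hBc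
    (fun v hv _ => (hkey v (hLv₁.trans hv) n hnp (hnv v hv)).1)
  have s4 := int_err (N := 1) hL1 hLM
  have s5 := A1_upper (fun m => vonMangoldt m) (fun m => ArithmeticFunction.vonMangoldt_nonneg) L M hL1 hLM
  -- the boundary terms
  have hexp1 : Real.exp 1 < 3 := by linarith [Real.exp_one_lt_d9]
  have hb1 : ((n : ℝ) - 1) * (4 * Real.exp (-L) / L * W1 (wp n) (L + 1)) ≤ 36 := by
    have h1 := (hkey (L + 1) (by linarith) n hnp (hnv _ (by linarith))).2
    have h2 := hvm (L + 1) (by linarith)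
    have h3 : Real.exp (L + 1) / (L + 1) ^ 2 ≤ Real.exp (L + 1) := by
      apply div_le_self (Real.exp_pos _).le
      nlinarith
    have h4 : ((n : ℝ) - 1) * W1 (wp n) (L + 1) ≤ 3 * Real.exp (L + 1) := by linarith
    have h5 : ((n : ℝ) - 1) * (4 * Real.exp (-L) / L * W1 (wp n) (L + 1)) =
        4 * Real.exp (-L) / L * (((n : ℝ) - 1) * W1 (wp n) (L + 1)) := by ring
    have h6 : 4 * Real.exp (-L) / L * (((n : ℝ) - 1) * W1 (wp n) (L + 1)) ≤
        4 * Real.exp (-L) / L * (3 * Real.exp (L + 1)) := mul_le_mul_of_nonneg_left h4 (by positivity)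
    have h7 : 4 * Real.exp (-L) / L * (3 * Real.exp (L + 1)) = 12 * (Real.exp (-L) * Real.exp (L + 1)) / L := by ring
    rw [h5]
    refine h6.trans ?_
    rw [h7, ← Real.exp_add, show -L + (L + 1) = 1 by ring, div_le_iff₀ hL0]
    nlinarith
  have hb2 : 4 * Real.exp (-M) / M * W1 (fun m => vonMangoldt m) (M + 1) ≤ 24 := by
    have h1 := hvm (M + 1) (by linarith)
    have h2 : 4 * Real.exp (-M) / M * W1 (fun m => vonMangoldt m) (M + 1) ≤
        4 * Real.exp (-M) / M * (2 * Real.exp (M + 1)) := mul_le_mul_of_nonneg_left h1 (by positivity)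
    have h3 : 4 * Real.exp (-M) / M * (2 * Real.exp (M + 1)) = 8 * (Real.exp (-M) * Real.exp (M + 1)) / M := by ring
    rw [h3, ← Real.exp_add, show -M + (M + 1) = 1 by ring] at h2
    refine h2.trans ?_
    rw [div_le_iff₀ hM0]
    nlinarith
  have hb3 : 10 * ((1 : ℕ) : ℝ) / L ≤ 10 := by
    rw [div_le_iff₀ hL0]
    push_cast
    linarith
  -- Mertens
  have hfa : L - 1 ≤ Real.log ⌊Real.exp L⌋₊ := log_floor hL1
  have hfb : M - 1 ≤ Real.log ⌊Real.exp M⌋₊ := log_floor (by linarith)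
  have hfa2 : 2 ≤ ⌊Real.exp L⌋₊ := by
    apply Nat.le_floor
    have h1 : Real.exp 1 ≤ Real.exp L := Real.exp_le_exp.2 hL1
    have h2 : (2 : ℝ) < Real.exp 1 := by linarith [Real.exp_one_gt_d9]
    push_cast
    linarith
  have hMe := mertL hfa2 (A1.floor_mono hLM)
  have hfa3 : (2 : ℝ) ≤ ⌊Real.exp L⌋₊ := by exact_mod_cast hfa2
  have hla : Real.log ⌊Real.exp L⌋₊ ≤ L := by
    have h2 := Real.log_le_log (show (0 : ℝ) < ⌊Real.exp L⌋₊ by linarith) (Nat.floor_le (Real.exp_pos L).le)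
    rwa [Real.log_exp] at h2
  have hla1 : 1 ≤ Real.log ⌊Real.exp L⌋₊ := by linarith
  have h13 : 13 / Real.log ⌊Real.exp L⌋₊ ≤ 13 := by
    rw [div_le_iff₀ (by linarith)]
    linarith
  have hlla : Real.log (Real.log ⌊Real.exp L⌋₊) ≤ Real.log L := Real.log_le_log (by linarith) hla
  have hllb : Real.log M - 1 ≤ Real.log (Real.log ⌊Real.exp M⌋₊) := by
    have h1 : M / 2 ≤ Real.log ⌊Real.exp M⌋₊ := by linarith
    have h2 := Real.log_le_log (by positivity) h1
    rw [Real.log_div hM0.ne' two_ne_zero] at h2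
    have h3 := Real.log_two_lt_d9
    linarith
  have hlM : Real.log M = Real.log θ + Real.log n := by rw [hMdef, Real.log_mul hθ.ne' hn0.ne']
  have hlL : Real.log L = 1 / (B : ℝ) * Real.log n := by rw [hLdef, Real.log_rpow hn0]
  have hθ' := neg_abs_le (Real.log θ)
  have hfin : (1 - 1 / (B : ℝ)) * Real.log n = Real.log n - 1 / (B : ℝ) * Real.log n := by ring
  rw [hfin]
  rw [mul_add] at s2
  linarith

/-- the product is at most the exponential of the sum -/
lemma Pn_le {θ : ℝ} {n : ℕ} (hn : n.Prime) (hn2 : n ≠ 2) :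
    Pn (Real.exp (θ * n)) n ≤ Real.exp (-(((n : ℝ) - 1) * SS θ n)) := by
  have h0 : ∀ p ∈ pz (Real.exp (θ * n)), 0 ≤ 1 - (#(rts p n) : ℝ) / p := by
    intro p hp
    have hp' := (mem_pz.1 hp).1
    have hpp : (0 : ℝ) < p := by exact_mod_cast hp'.pos
    have h1 : #(rts p n) ≤ p := by
      have := card_filter_le (range p) (fun b => qs p b n = 0)
      rwa [card_range] at this
    have h2 : (#(rts p n) : ℝ) ≤ p := by exact_mod_cast h1
    rw [sub_nonneg, div_le_one hpp]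
    exact h2
  have h1 : Pn (Real.exp (θ * n)) n ≤ ∏ p ∈ pz (Real.exp (θ * n)), Real.exp (-((#(rts p n) : ℝ) / p)) := by
    unfold Pn
    refine prod_le_prod h0 fun p _ => ?_
    have := Real.add_one_le_exp (-((#(rts p n) : ℝ) / p))
    linarith
  refine h1.trans ?_
  rw [← Real.exp_sum]
  apply Real.exp_le_exp.2
  rw [sum_neg_distrib, neg_le_neg_iff]
  unfold SS
  rw [mul_sum]
  have h2 : ∀ p ∈ (pz (Real.exp (θ * n))).filter (fun p => p % n = 1),
      ((n : ℝ) - 1) * (1 / (p : ℝ)) = (#(rts p n) : ℝ) / p := by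
    intro p hp
    rw [mem_filter, mem_pz] at hp
    have hne : p ≠ n := by
      rintro rfl
      have := hp.2
      rw [Nat.mod_self] at this
      omega
    rw [card_rts hn hn2 hp.1.1, if_neg hne, if_pos hp.2, Nat.cast_sub hn.one_lt.le, Nat.cast_one]
    ring
  rw [sum_congr rfl h2]
  exact sum_le_sum_of_subset_of_nonneg (filter_subset _ _) fun p _ _ => by positivity

lemma Pn_le_one {z : ℝ} {n : ℕ} : Pn z n ≤ 1 := by
  unfold Pn
  refine prod_le_one (fun p hp => ?_) fun p hp => ?_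
  · have hp' := (mem_pz.1 hp).1
    have hpp : (0 : ℝ) < p := by exact_mod_cast hp'.pos
    have h1 : #(rts p n) ≤ p := by
      have := card_filter_le (range p) (fun b => qs p b n = 0)
      rwa [card_range] at this
    have h2 : (#(rts p n) : ℝ) ≤ p := by exact_mod_cast h1
    rw [sub_nonneg, div_le_one hpp]
    exact h2
  · have : (0 : ℝ) ≤ (#(rts p n) : ℝ) / p := by positivity
    linarith

end Uh

open Uh in
theorem Pn_upper (θ ε : ℝ) (hθ : 0 < θ) (hε : 0 < ε) : ∃ C : ℝ, 0 < C ∧ ∀ n : ℕ, n.Prime → n ≠ 2 →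
    Pn (Real.exp (θ * n)) n ≤ C * (n : ℝ) ^ (ε - 1) := by
  obtain ⟨B₀, hB₀⟩ := exists_nat_ge (1 / ε)
  set B := max 2 B₀ with hBdef
  have hB2 : 2 ≤ B := le_max_left _ _
  have hB2' : (2 : ℝ) ≤ B := by exact_mod_cast hB2
  have hBε : 1 / (B : ℝ) ≤ ε := by
    have h1 : 1 / ε ≤ B := hB₀.trans (by exact_mod_cast le_max_right _ _)
    rw [div_le_iff₀ hε] at h1
    rw [div_le_iff₀ (by linarith)]
    linarith
  obtain ⟨n₀, hn₀⟩ := SS_lower hθ hB2
  set K := |Real.log θ| + 100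
  refine ⟨Real.exp K + n₀, by positivity, fun n hn hn2 => ?_⟩
  have hn1 : (1 : ℝ) ≤ n := by exact_mod_cast hn.one_lt.le
  have hn0 : (0 : ℝ) < n := by linarith
  have hrp : 0 < (n : ℝ) ^ (ε - 1) := Real.rpow_pos_of_pos hn0 _
  by_cases hnn : n₀ ≤ n
  · have h1 := hn₀ n hnn hn
    have h2 : Pn (Real.exp (θ * n)) n ≤ Real.exp K * (n : ℝ) ^ (ε - 1) := by
      refine (Pn_le hn hn2).trans ?_
      rw [Real.rpow_def_of_pos hn0, ← Real.exp_add]
      apply Real.exp_le_exp.2
      have h3 : 0 ≤ Real.log n := Real.log_nonneg hn1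
      nlinarith [mul_le_mul_of_nonneg_right hBε h3]
    have h3 : 0 ≤ (n₀ : ℝ) * (n : ℝ) ^ (ε - 1) := by positivity
    rw [add_mul]
    linarith
  · have h1 : (n : ℝ) ≤ n₀ := by exact_mod_cast (not_le.1 hnn).le
    have h2 : (n : ℝ) ^ (-1 : ℝ) ≤ (n : ℝ) ^ (ε - 1) := Real.rpow_le_rpow_of_exponent_le hn1 (by linarith)
    rw [Real.rpow_neg_one] at h2
    have h3 : 1 ≤ (n₀ : ℝ) * (n : ℝ) ^ (ε - 1) := by
      calc (1 : ℝ) = n * (n : ℝ)⁻¹ := (mul_inv_cancel₀ hn0.ne').symm
        _ ≤ n₀ * (n : ℝ) ^ (ε - 1) := mul_le_mul h1 h2 (by positivity) (by positivity)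
    have h4 : 0 ≤ Real.exp K * (n : ℝ) ^ (ε - 1) := by positivity
    rw [add_mul]
    linarith [Pn_le_one (z := Real.exp (θ * n)) (n := n)]

end Pool.Agent.L5helper86.RB
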